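import Pool.Agent.Helper77.LM.Simp

/-!
# The simplices are strict local minimisers of all `L^p` Mahler volumes, `0 < p < ∞`

For every dimension `n ≥ 1` and every `0 < p < ∞` there is `δ > 0` such that the inequality of the
non-symmetric `L^p` Mahler conjecture holds for every convex body `K`, in any position, which is
contained in a simplex of volume at most `(1 + δ) |K|`, with equality only for simplices and with
a stability term which is linear in the volume defect.
-/

set_option autoImplicit false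

noncomputable section

open MeasureTheory
open scoped ENNReal

namespace Pool.Agent.Helper63.Variants.SimplexLocalMinimality

variable {n : ℕ}

/-- convex bodies of `ℝⁿ` (in any position) -/
def Body (K : Set (Fin n → ℝ)) : Prop :=
  Convex ℝ K ∧ IsCompact K ∧ (interior K).Nonempty

/-- the `L^p` Mahler volume `|L| ∫ exp (-h_{p,L}(y)) dy` for real `p > 0`, where
`exp (-h_{p,L}(y))` is the power `-1/p` of the average of `exp (p ⟨x, y⟩)` over `L` -/
def Mp (p : ℝ) (L : Set (Fin n → ℝ)) : ℝ≥0∞ := volume L *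
  ∫⁻ y : Fin n → ℝ, ENNReal.ofReal
    (((∫ x in L, Real.exp (p * ∑ i, x i * y i)) / (volume L).toReal) ^ (-(1 / p)))

/-- the standard simplex `Δ_n` -/
def stdSimp (n : ℕ) : Set (Fin n → ℝ) := {z | (∀ i, 0 ≤ z i) ∧ ∑ i, z i ≤ 1}

/-- simplices: the images of the standard simplex under the invertible affine maps -/
def IsSimplex (T : Set (Fin n → ℝ)) : Prop :=
  ∃ (A : Matrix (Fin n) (Fin n) ℝ) (c : Fin n → ℝ), A.det ≠ 0 ∧
    T = (fun x => A.mulVec x + c) '' stdSimp n

/-- the right hand side of Q1: the infimum of `M_p (Δ_n - x)` over `x ∈ Δ_n` -/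
def infSimp (p : ℝ) (n : ℕ) : ℝ≥0∞ :=
  ⨅ x ∈ stdSimp n, Mp p ((fun z => z - x) '' stdSimp n)

/-- **Local minimality of the simplices for the `L^p` Mahler volumes.** -/
theorem result (n : ℕ) (hn : 1 ≤ n) (p : ℝ) (hp : 0 < p) : ∃ δ : ℝ, 0 < δ ∧
    ∀ K T₀ : Set (Fin n → ℝ), Body K → IsSimplex T₀ → K ⊆ T₀ →
      volume T₀ ≤ ENNReal.ofReal (1 + δ) * volume K →
      -- (1) the inequality of Q1 holds for `K`
      (infSimp p n ≤ Mp p K) ∧
      -- (2) with equality only if `K` is a simplex
      (Mp p K = infSimp p n → IsSimplex K) ∧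
      -- (3) stability, linear in the volume defect
      (∃ T : Set (Fin n → ℝ), IsSimplex T ∧ K ⊆ T ∧ volume T ≤ volume T₀ ∧
        ENNReal.ofReal (1 + δ * ((volume T).toReal / (volume K).toReal - 1)) * infSimp p n
          ≤ Mp p K) := by
  obtain ⟨m, rfl⟩ : ∃ m, n = m + 1 := ⟨n - 1, by omega⟩
  obtain ⟨δ, hδ, h⟩ := Helper77.LM.main2 hp m
  refine ⟨δ, hδ, ?_⟩
  rintro K T₀ ⟨hcv, hcp, hin⟩ hT₀ hKT hvol
  exact h K T₀ hcv hcp hin hT₀ hKT hvol

end Pool.Agent.Helper63.Variants.SimplexLocalMinimality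

end
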